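import Pool.Agent.V5helper28.KP.Stm2
import Pool.Agent.V5helper9.SSK.JobG

/-!
# Job GG of project KP: subsystems of graph-directed systems with equal ratios and separated slopes
-/

set_option autoImplicit false

namespace Pool.Agent.V5helper48.KP

open Pool.Agent.V5helper28.SSK Pool.Agent.V5helper28.KP Pool.Agent.V5helper9.SSK
open MeasureTheory Set Filter
open scoped ENNReal NNReal Topology

variable {d : ℕ} {P I : Type} (src tgt : I → P)

/-- the word is a path from `p` -/
def IsP : (k : ℕ) → P → (Fin k → I) → Prop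
  | 0, _, _ => True
  | k + 1, p, u => src (u 0) = p ∧ IsP k (tgt (u 0)) (fun j => u j.succ)

/-- the end of the path -/
def en : (k : ℕ) → P → (Fin k → I) → P
  | 0, p, _ => p
  | k + 1, _, u => en k (tgt (u 0)) (fun j => u j.succ)

/-- the translation part of the composition -/
noncomputable def Bw (R : I → ℝ) (b : I → E d × E d) : (k : ℕ) → (Fin k → I) → E d × E d
  | 0, _ => 0
  | k + 1, u => R (u 0) • Bw R b k (fun j => u j.succ) + b (u 0)

variable {src tgt}

theorem words_in {R : I → ℝ} {b : I → E d × E d} {Γ : P → Set (E d × E d)}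
    (h : GD P I src tgt R b Γ) (k : ℕ) : ∀ (p : P) (u : Fin k → I), IsP src tgt k p u →
      ∀ z ∈ Γ (en tgt k p u), (∏ j, R (u j)) • z + Bw R b k u ∈ Γ p := by
  induction k with
  | zero =>
    intro p u _ z hz
    simpa [Bw, en] using hz
  | succ k ih =>
    intro p u hu z hz
    have a1 := ih (tgt (u 0)) (fun j => u j.succ) hu.2 z hz
    rw [h.inv p]
    refine mem_iUnion.2 ⟨u 0, mem_iUnion.2 ⟨hu.1, ?_⟩⟩
    refine ⟨_, a1, ?_⟩
    simp only [Bw]
    rw [Fin.prod_univ_succ, smul_add, smul_smul, add_assoc]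

theorem words_out {R : I → ℝ} {b : I → E d × E d} {Γ : P → Set (E d × E d)}
    (h : GD P I src tgt R b Γ) (k : ℕ) : ∀ (p : P), ∀ y ∈ Γ p, ∃ u : Fin k → I,
      IsP src tgt k p u ∧ ∃ z ∈ Γ (en tgt k p u), y = (∏ j, R (u j)) • z + Bw R b k u := by
  induction k with
  | zero =>
    intro p y hy
    exact ⟨Fin.elim0, trivial, y, hy, by simp [Bw]⟩
  | succ k ih =>
    intro p y hy
    rw [h.inv p] at hy
    obtain ⟨i, hy⟩ := mem_iUnion.1 hy
    obtain ⟨hi, y', hy', e⟩ := mem_iUnion.1 hy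
    obtain ⟨u, hu, z, hz, e'⟩ := ih (tgt i) y' hy'
    refine ⟨Fin.cons i u, ⟨hi, ?_⟩, z, ?_, ?_⟩
    · simpa only [Fin.cons_zero, Fin.cons_succ] using hu
    · simpa only [en, Fin.cons_zero, Fin.cons_succ] using hz
    · rw [Fin.prod_univ_succ]
      simp only [Bw, Fin.cons_zero, Fin.cons_succ]
      rw [← e]
      simp only
      rw [e', smul_add, smul_smul, add_assoc]

/-- the way back -/
theorem back {R : I → ℝ} {b : I → E d × E d} {Γ : P → Set (E d × E d)}
    (h : GD P I src tgt R b Γ) (q p : P) : ∃ (κ : ℝ) (β : E d × E d), 0 < κ ∧ κ ≤ 1 ∧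
      ∀ z ∈ Γ p, κ • z + β ∈ Γ q := by
  induction h.conn q p with
  | refl => exact ⟨1, 0, one_pos, le_rfl, fun z hz => by simpa using hz⟩
  | tail _ e ih =>
    obtain ⟨κ, β, h1, h2, h3⟩ := ih
    obtain ⟨i, hi1, hi2⟩ := e
    refine ⟨κ * R i, κ • b i + β, mul_pos h1 (h.ratio i).1, ?_, fun z hz => ?_⟩
    · exact mul_le_one₀ h2 (h.ratio i).1.le (h.ratio i).2.le
    · have h4 := h3 (R i • z + b i) (by
        rw [h.inv]
        refine mem_iUnion.2 ⟨i, mem_iUnion.2 ⟨hi1, z, ?_, rfl⟩⟩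
        rwa [hi2])
      rwa [smul_add, smul_smul, add_assoc] at h4

/-- a maximal separated family, for classes -/
theorem maxfam' {A T : Type} [Fintype A] (ρ : A → ℝ) (cl : A → T) (v : A → E d) (C : ℝ)
    (hcl : ∀ u u', cl u = cl u' → ρ u = ρ u') :
    ∃ F : Finset A, (∀ u ∈ F, ∀ u' ∈ F, u ≠ u' → cl u = cl u' → ρ u * C ≤ ‖v u - v u'‖) ∧
      ∀ u, 0 < ρ u → 0 < C → ∃ u' ∈ F, cl u = cl u' ∧ ‖v u - v u'‖ ≤ ρ u * C := by
  classical
  obtain ⟨F, hF, hmax⟩ := Finset.exists_maximal (s := (Finset.univ : Finset (Finset A)).filter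
    (fun F => ∀ u ∈ F, ∀ u' ∈ F, u ≠ u' → cl u = cl u' → ρ u * C ≤ ‖v u - v u'‖))
    ⟨∅, by simp⟩
  rw [Finset.mem_filter] at hF
  refine ⟨F, hF.2, ?_⟩
  intro u hu hC
  by_cases hmem : u ∈ F
  · exact ⟨u, hmem, rfl, by rw [sub_self, norm_zero]; positivity⟩
  by_contra hcon
  push Not at hcon
  have : insert u F ∈ (Finset.univ : Finset (Finset A)).filter
    (fun F => ∀ u ∈ F, ∀ u' ∈ F, u ≠ u' → cl u = cl u' → ρ u * C ≤ ‖v u - v u'‖) := by
    rw [Finset.mem_filter]
    refine ⟨Finset.mem_univ _, ?_⟩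
    intro a ha a' ha' hne he
    rw [Finset.mem_insert] at ha ha'
    rcases ha with rfl | ha
    · rcases ha' with rfl | ha'
      · exact absurd rfl hne
      · exact (hcon a' ha' he).le
    · rcases ha' with rfl | ha'
      · rw [norm_sub_rev, hcl _ _ he]
        exact (hcon a ha he.symm).le
      · exact hF.2 a ha a' ha' hne he
  have h2 := hmax this (Finset.subset_insert u F)
  exact hmem (h2 (Finset.mem_insert_self u F))

theorem t_GG : S_GG := by
  classical
  intro d P I _ _ src tgt R b Γ hG p s hs hdim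
  have : Fintype P := Fintype.ofFinite P
  obtain ⟨i₁, hi₁⟩ : ∃ i : I, True := by
    obtain ⟨y, hy⟩ := hG.nonempty p
    rw [hG.inv p] at hy
    obtain ⟨i, _⟩ := mem_iUnion.1 hy
    exact ⟨i, trivial⟩
  have : Nonempty I := ⟨i₁⟩
  have hR := hG.ratio
  -- the bound of the diameters
  obtain ⟨D, hD⟩ : ∃ D : ℝ, ∀ q q', ∀ x ∈ Prod.fst '' Γ q, ∀ y ∈ Prod.fst '' Γ q', dist x y ≤ D := by
    have hc : IsCompact (⋃ q, Prod.fst '' Γ q) :=
      isCompact_iUnion fun q => (hG.compact q).image continuous_fst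
    obtain ⟨D, hD⟩ := Metric.isBounded_iff.1 hc.isBounded
    exact ⟨D, fun q q' x hx y hy => hD (mem_iUnion.2 ⟨q, hx⟩) (mem_iUnion.2 ⟨q', hy⟩)⟩
  set V : Set (E d) := Prod.fst '' Γ p with hVdef
  obtain ⟨x₀, hx₀⟩ : V.Nonempty := (hG.nonempty p).image _
  have hD0 : 0 ≤ D := by have := hD p p x₀ hx₀ x₀ hx₀; rwa [dist_self] at this
  have hD' : ∀ x ∈ V, ∀ y ∈ V, ‖x - y‖ ≤ D := fun x hx y hy => by
    rw [← dist_eq_norm]; exact hD p p x hx y hy
  -- the ways back
  choose κ β hκ0 hκ1 hκ using fun q => back hG q p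
  obtain ⟨q₀, hq₀⟩ : ∃ q₀, ∀ q, κ q₀ ≤ κ q := by
    have : Nonempty P := ⟨p⟩
    exact Finite.exists_min κ
  set δ : ℝ := κ q₀ with hδ
  have hδ0 : 0 < δ := hκ0 q₀
  set M0 : ℝ := δ ^ (-s) with hM0
  have hM00 : 0 < M0 := Real.rpow_pos_of_pos hδ0 _
  -- the words
  let A : ℕ → Type := fun k => {u : Fin k → I // IsP src tgt k p u}
  let ρ' : (k : ℕ) → A k → ℝ := fun k u => ∏ j, R (u.1 j)
  let cl : (k : ℕ) → A k → ℝ × P := fun k u => (∏ j, R (u.1 j), en tgt k p u.1)
  have hcl : ∀ k u u', cl k u = cl k u' → ρ' k u = ρ' k u' := fun k u u' h =>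
    congrArg Prod.fst h
  choose F hF1 hF2 using fun k => maxfam' (ρ' k) (cl k)
    (fun u : A k => (Bw R b k u.1).1) (D + 1) (hcl k)
  have hpos : ∀ (k : ℕ) (u : A k), 0 < ρ' k u :=
    fun k u => Finset.prod_pos (fun j _ => (hR (u.1 j)).1)
  obtain ⟨i₀, hi₀⟩ : ∃ i₀, ∀ i, R i ≤ R i₀ := Finite.exists_max R
  set c : ℝ := R i₀ with hc
  have hc0 : 0 < c := (hR i₀).1
  have hc1 : c < 1 := (hR i₀).2
  have hle : ∀ (k : ℕ) (u : A k), ρ' k u ≤ c ^ k := by
    intro k u
    calc ∏ j, R (u.1 j) ≤ ∏ _j : Fin k, c :=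
          Finset.prod_le_prod (fun j _ => (hR (u.1 j)).1.le) (fun j _ => hi₀ (u.1 j))
      _ = c ^ k := by rw [Finset.prod_const, Finset.card_univ, Fintype.card_fin]
  by_cases hgood : ∃ (k : ℕ) (ρ : ℝ) (q : P), 1 ≤ k ∧ 0 < ρ ∧ ρ < 1 ∧
      (ρ * κ q) ^ (-s) ≤ (((F k).filter (fun u => cl k u = (ρ, q))).card : ℝ)
  · obtain ⟨k, ρ, q, hk, hρ, hρ1, hcard⟩ := hgood
    set G := (F k).filter (fun u => cl k u = (ρ, q)) with hGdef
    have hGm : ∀ i : Fin G.card, (G.equivFin.symm i).1 ∈ F k ∧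
        cl k (G.equivFin.symm i).1 = (ρ, q) := fun i =>
      Finset.mem_filter.1 (G.equivFin.symm i).2
    have hGρ : ∀ i : Fin G.card, ∏ j, R ((G.equivFin.symm i).1.1 j) = ρ := fun i =>
      congrArg Prod.fst (hGm i).2
    have hGq : ∀ i : Fin G.card, en tgt k p (G.equivFin.symm i).1.1 = q := fun i =>
      congrArg Prod.snd (hGm i).2
    have hr0 : 0 < ρ * κ q := mul_pos hρ (hκ0 q)
    have hr1 : ρ * κ q < 1 := by
      calc ρ * κ q ≤ ρ * 1 := mul_le_mul_of_nonneg_left (hκ1 q) hρ.le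
        _ < 1 := by rwa [mul_one]
    have hmap : ∀ (i : Fin G.card), ∀ z ∈ Γ p, (ρ * κ q) • z +
        ((ρ • β q + Bw R b k (G.equivFin.symm i).1.1).1,
          (ρ • β q + Bw R b k (G.equivFin.symm i).1.1).2) ∈ Γ p := by
      intro i z hz
      have h1 := hκ q z hz
      rw [← hGq i] at h1
      have := words_in hG k p (G.equivFin.symm i).1.1 (G.equivFin.symm i).1.2 _ h1
      rw [hGρ i, hGq i, smul_add, smul_smul, add_assoc] at this
      exact this
    have hpow : 0 < (ρ * κ q) ^ (-s) := Real.rpow_pos_of_pos hr0 _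
    have hGpos : 0 < G.card := by
      have : (0 : ℝ) < G.card := lt_of_lt_of_le hpow hcard
      exact_mod_cast this
    refine ⟨G.card, ρ * κ q, 1, fun i => (ρ • β q + Bw R b k (G.equivFin.symm i).1.1).1,
      fun i => (ρ • β q + Bw R b k (G.equivFin.symm i).1.1).2, hGpos, hr0, hr1, one_pos, hmap,
      ?_, ?_⟩
    · apply sep_of (ρ * κ q) D hr0 hr1 _ V ⟨x₀, hx₀⟩ hD'
      · rintro i _ ⟨z, hz, rfl⟩
        exact ⟨_, hmap i z hz, rfl⟩
      · intro i i' hne
        have hne' : (G.equivFin.symm i).1 ≠ (G.equivFin.symm i').1 := by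
          intro h
          exact hne (G.equivFin.symm.injective (Subtype.ext h))
        have h1 := hF1 k _ (hGm i).1 _ (hGm i').1 hne' (by rw [(hGm i).2, (hGm i').2])
        have h2 : ρ' k (G.equivFin.symm i).1 = ρ := hGρ i
        rw [h2] at h1
        have h3 : (ρ • β q + Bw R b k (G.equivFin.symm i).1.1).1 -
            (ρ • β q + Bw R b k (G.equivFin.symm i').1.1).1 =
            (Bw R b k (G.equivFin.symm i).1.1).1 - (Bw R b k (G.equivFin.symm i').1.1).1 := by
          rw [Prod.fst_add, Prod.fst_add, add_sub_add_left_eq_sub]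
        rw [h3]
        refine le_trans ?_ h1
        apply mul_le_mul_of_nonneg_right _ (by linarith)
        calc ρ * κ q ≤ ρ * 1 := mul_le_mul_of_nonneg_left (hκ1 q) hρ.le
          _ = ρ := mul_one ρ
    · have h1 : 0 < Real.log (ρ * κ q)⁻¹ := Real.log_pos ((one_lt_inv₀ hr0).2 hr1)
      rw [le_div_iff₀ h1, Real.log_inv, mul_neg, ← neg_mul, ← Real.log_rpow hr0]
      exact Real.log_le_log hpow hcard
  · exfalso
    push Not at hgood
    obtain ⟨s', h1, h2⟩ := ENNReal.lt_iff_exists_nnreal_btwn.1 hdim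
    have hss : s < (s' : ℝ) := by
      have := (ENNReal.ofReal_lt_iff_lt_toReal hs.le ENNReal.coe_ne_top).1 h1
      simpa using this
    have hs'0 : (0 : ℝ) < s' := hs.trans hss
    set C : ℝ := 2 * (2 * D + 1) with hC
    have hC0 : 0 < C := by positivity
    -- the sum
    have key : ∀ k : ℕ, 1 ≤ k → ∑ u ∈ F k, (C * ρ' k u) ^ (s' : ℝ)
        ≤ (((k + 1) ^ Fintype.card I * Fintype.card P : ℕ) : ℝ) *
          (M0 * C ^ (s' : ℝ) * (c ^ ((s' : ℝ) - s)) ^ k) := by
      intro k hk
      rw [← Finset.sum_fiberwise_of_maps_to (s := F k)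
        (t := Finset.univ.image (cl k))
        (g := cl k) (fun u _ => Finset.mem_image_of_mem _ (Finset.mem_univ u))]
      have h3 : ∀ x ∈ Finset.univ.image (cl k),
          ∑ u ∈ (F k).filter (fun u => cl k u = x), (C * ρ' k u) ^ (s' : ℝ)
          ≤ M0 * C ^ (s' : ℝ) * (c ^ ((s' : ℝ) - s)) ^ k := by
        intro x hx
        obtain ⟨u₀, _, rfl⟩ := Finset.mem_image.1 hx
        set ρ := ρ' k u₀ with hρdef
        have hρ0 : 0 < ρ := hpos k u₀
        have hρc : ρ ≤ c ^ k := hle k u₀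
        have hρ1 : ρ < 1 := lt_of_le_of_lt hρc (pow_lt_one₀ hc0.le hc1 (by omega))
        have h4 := (hgood k ρ (en tgt k p u₀.1) hk hρ0 hρ1).le
        have h4' : (((F k).filter (fun u => cl k u = cl k u₀)).card : ℝ) ≤ ρ ^ (-s) * M0 := by
          refine le_trans h4 ?_
          rw [Real.mul_rpow hρ0.le (hκ0 _).le]
          apply mul_le_mul_of_nonneg_left _ (by positivity)
          rw [hM0]
          exact Real.rpow_le_rpow_of_nonpos hδ0 (hq₀ _) (by linarith)
        rw [Finset.sum_congr rfl (g := fun _ => (C * ρ) ^ (s' : ℝ)) (by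
          intro u hu
          rw [hcl k u u₀ (Finset.mem_filter.1 hu).2]), Finset.sum_const, nsmul_eq_mul,
          Real.mul_rpow hC0.le hρ0.le]
        calc _ ≤ (ρ ^ (-s) * M0) * (C ^ (s' : ℝ) * ρ ^ (s' : ℝ)) :=
              mul_le_mul_of_nonneg_right h4' (by positivity)
          _ = M0 * C ^ (s' : ℝ) * ρ ^ ((s' : ℝ) - s) := by
              rw [sub_eq_add_neg, Real.rpow_add hρ0]; ring
          _ ≤ M0 * C ^ (s' : ℝ) * (c ^ k) ^ ((s' : ℝ) - s) := by
              apply mul_le_mul_of_nonneg_left _ (by positivity)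
              exact Real.rpow_le_rpow hρ0.le hρc (by linarith)
          _ = _ := by
              rw [← Real.rpow_natCast, ← Real.rpow_mul hc0.le, mul_comm (k : ℝ),
                Real.rpow_mul hc0.le, Real.rpow_natCast]
      refine (Finset.sum_le_card_nsmul _ _ _ h3).trans ?_
      rw [nsmul_eq_mul]
      apply mul_le_mul_of_nonneg_right _ (by positivity)
      have h5 : (Finset.univ.image (cl k)).card ≤ (k + 1) ^ Fintype.card I * Fintype.card P := by
        have h6 : Finset.univ.image (cl k) ⊆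
            (Finset.univ.image (fun u : Fin k → I => ∏ j, R (u j))) ×ˢ (Finset.univ : Finset P) := by
          intro x hx
          obtain ⟨u, _, rfl⟩ := Finset.mem_image.1 hx
          exact Finset.mem_product.2 ⟨Finset.mem_image_of_mem _ (Finset.mem_univ _),
            Finset.mem_univ _⟩
        refine (Finset.card_le_card h6).trans ?_
        rw [Finset.card_product, Finset.card_univ]
        exact Nat.mul_le_mul_right _ (ratios R k)
      exact_mod_cast h5
    have hlim : Tendsto (fun k : ℕ => (((k + 1) ^ Fintype.card I * Fintype.card P : ℕ) : ℝ)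
        * (M0 * C ^ (s' : ℝ) * (c ^ ((s' : ℝ) - s)) ^ k)) atTop (𝓝 0) := by
      set q : ℝ := c ^ ((s' : ℝ) - s) with hq
      have hq0 : 0 < q := Real.rpow_pos_of_pos hc0 _
      have hq1 : q < 1 := Real.rpow_lt_one hc0.le hc1 (by linarith)
      have h5 := (tendsto_pow_const_mul_const_pow_of_abs_lt_one (Fintype.card I)
        (r := q) (by rw [abs_of_pos hq0]; exact hq1)).comp (tendsto_add_atTop_nat 1)
      have h6 := h5.const_mul (M0 * C ^ (s' : ℝ) * q⁻¹ * Fintype.card P)
      rw [mul_zero] at h6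
      refine h6.congr ?_
      intro k
      simp only [Function.comp_apply]
      push_cast
      rw [pow_succ]
      field_simp
    -- the cover
    have hcov : ∀ k : ℕ, V ⊆ ⋃ u : A k, (if u ∈ F k then
        Metric.closedBall ((ρ' k u) • x₀ + (Bw R b k u.1).1) ((ρ' k u) * (2 * D + 1)) else ∅) := by
      rintro k _ ⟨y, hy, rfl⟩
      obtain ⟨u₁, hu₁, z, hz, rfl⟩ := words_out hG k p y hy
      let u : A k := ⟨u₁, hu₁⟩
      obtain ⟨u', hu', he, hn⟩ := hF2 k u (hpos k u) (by linarith)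
      rw [mem_iUnion]
      refine ⟨u', ?_⟩
      have he' : ρ' k u = ρ' k u' := hcl k u u' he
      rw [if_pos hu', Metric.mem_closedBall, dist_eq_norm, ← he']
      have e1 : ((ρ' k u) • z + Bw R b k u.1).1 - ((ρ' k u) • x₀ + (Bw R b k u'.1).1)
          = (ρ' k u) • (z.1 - x₀) + ((Bw R b k u.1).1 - (Bw R b k u'.1).1) := by
        simp only [Prod.fst_add, Prod.smul_fst, smul_sub]; abel
      show ‖((ρ' k u) • z + Bw R b k u.1).1 - ((ρ' k u) • x₀ + (Bw R b k u'.1).1)‖ ≤ _
      rw [e1]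
      refine (norm_add_le _ _).trans ?_
      rw [norm_smul, Real.norm_of_nonneg (hpos k u).le]
      have e3 : ‖z.1 - x₀‖ ≤ D := by
        rw [← dist_eq_norm]
        exact hD _ _ _ ⟨z, hz, rfl⟩ _ hx₀
      have e2 := mul_le_mul_of_nonneg_left e3 (hpos k u).le
      linarith
    have hdiam : ∀ (k : ℕ) (u : A k), Metric.ediam (if u ∈ F k then
        Metric.closedBall ((ρ' k u) • x₀ + (Bw R b k u.1).1) ((ρ' k u) * (2 * D + 1)) else ∅)
        ≤ if u ∈ F k then ENNReal.ofReal (C * ρ' k u) else 0 := by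
      intro k u
      by_cases hu : u ∈ F k
      · rw [if_pos hu, if_pos hu]
        apply Metric.ediam_le_of_forall_dist_le
        intro x hx y hy
        rw [Metric.mem_closedBall] at hx hy
        have := dist_triangle_right x y ((ρ' k u) • x₀ + (Bw R b k u.1).1)
        rw [hC]
        linarith
      · rw [if_neg hu, if_neg hu]; simp
    have hmu : μH[(s' : ℝ)] V ≤ 0 := by
      have h7 : Tendsto (fun k : ℕ => ENNReal.ofReal (C * c ^ k)) atTop (𝓝 0) := by
        have := (tendsto_pow_atTop_nhds_zero_of_lt_one hc0.le hc1).const_mul C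
        rw [mul_zero] at this
        have h8 := ENNReal.tendsto_ofReal this
        rwa [ENNReal.ofReal_zero] at h8
      have h9 := Measure.hausdorffMeasure_le_liminf_sum (s' : ℝ) V (l := atTop)
        (fun k : ℕ => ENNReal.ofReal (C * c ^ k)) h7
        (fun (k : ℕ) (u : A k) => (if u ∈ F k then
          Metric.closedBall ((ρ' k u) • x₀ + (Bw R b k u.1).1) ((ρ' k u) * (2 * D + 1)) else ∅))
        (Eventually.of_forall (fun k u => (hdiam k u).trans (by
          split_ifs
          · exact ENNReal.ofReal_le_ofReal (mul_le_mul_of_nonneg_left (hle k u) hC0.le)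
          · exact bot_le)))
        (Eventually.of_forall hcov)
      refine h9.trans ?_
      have h10 : Tendsto (fun k : ℕ => ∑ u : A k, (Metric.ediam (if u ∈ F k then
          Metric.closedBall ((ρ' k u) • x₀ + (Bw R b k u.1).1) ((ρ' k u) * (2 * D + 1))
          else ∅)) ^ (s' : ℝ)) atTop (𝓝 0) := by
        have h11 := ENNReal.tendsto_ofReal hlim
        rw [ENNReal.ofReal_zero] at h11
        refine tendsto_of_tendsto_of_tendsto_of_le_of_le' tendsto_const_nhds h11
          (Eventually.of_forall (fun _ => bot_le)) ?_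
        filter_upwards [eventually_ge_atTop 1] with k hk
        refine le_trans ?_ (ENNReal.ofReal_le_ofReal (key k hk))
        rw [ENNReal.ofReal_sum_of_nonneg (fun u _ => by
          have := hpos k u
          positivity)]
        have h12 : ∀ u : A k, (Metric.ediam (if u ∈ F k then
            Metric.closedBall ((ρ' k u) • x₀ + (Bw R b k u.1).1) ((ρ' k u) * (2 * D + 1))
            else ∅)) ^ (s' : ℝ) ≤ if u ∈ F k then ENNReal.ofReal ((C * ρ' k u) ^ (s' : ℝ))
              else 0 := by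
          intro u
          refine (ENNReal.rpow_le_rpow (hdiam k u) hs'0.le).trans ?_
          split_ifs
          · rw [ENNReal.ofReal_rpow_of_nonneg (mul_nonneg hC0.le (hpos k u).le) hs'0.le]
          · rw [ENNReal.zero_rpow_of_pos hs'0]
        refine (Finset.sum_le_sum (fun u _ => h12 u)).trans ?_
        rw [← Finset.sum_filter]
        apply le_of_eq
        congr 1
        ext u; simp
      rw [h10.liminf_eq]
    have h13 : dimH V ≤ s' := by
      apply dimH_le_of_hausdorffMeasure_ne_top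
      intro h14
      rw [h14] at hmu
      simp at hmu
    exact absurd h2 (not_lt.2 h13)

end Pool.Agent.V5helper48.KP
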