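import Pool.Agent.V5helper28.KP.Stm

/-!
# Job BLK of project KP: block words
-/

set_option autoImplicit false

open Pool.Agent.V5helper28.SSK

namespace Pool.Agent.V5helper48.KP

theorem t_BLK : Pool.Agent.V5helper28.KP.S_BLK := by
  intro d I c r k l
  refine ⟨(Equiv.curry (Fin k) (Fin l) I).symm.trans
    (Equiv.arrowCongr finProdFinEquiv (Equiv.refl I)), fun ω => ?_⟩
  unfold X
  rw [← Equiv.sum_comp (finProdFinEquiv (m := k) (n := l)), Fintype.sum_prod_type]
  refine Finset.sum_congr rfl fun j _ => ?_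
  rw [Finset.smul_sum]
  refine Finset.sum_congr rfl fun j' _ => ?_
  rw [smul_smul, ← pow_mul, ← pow_add]
  have h1 : ((finProdFinEquiv (j, j') : Fin (k * l)) : ℕ) = l * (j : ℕ) + (j' : ℕ) := by
    rw [finProdFinEquiv_apply_val, add_comm]
  rw [h1]
  congr 2
  show ω (finProdFinEquiv.symm (finProdFinEquiv (j, j'))).1
    (finProdFinEquiv.symm (finProdFinEquiv (j, j'))).2 = ω j j'
  rw [Equiv.symm_apply_apply]

end Pool.Agent.V5helper48.KP
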